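import Pool.Agent.H10.CM.FStmts

set_option autoImplicit false

open Polynomial

namespace Pool.CM.DEN

variable {E : Type} [Field E] {X : Idx} (A : PF X E)

theorem coeff_phiP (φ : E →+* E) (p : ℕ) (hp : 0 < p) (g : E[X]) (n : ℕ) :
    (phiP φ p g).coeff n = if p ∣ n then φ (g.coeff (n / p)) else 0 := by
  rw [phiP_apply, Polynomial.coeff_expand hp]
  split_ifs with h
  · rw [Polynomial.coeff_map]
  · rfl

theorem int_of_Pd (hA : A.Ax) {i : X.I} {d : ℕ} {g : E[X]} (hg : A.Pd i d g) : A.Int i g :=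
  fun n => hA.pol_O i d _ (hg.2 n)

theorem Pd_mono (hA : A.Ax) {i : X.I} {d e : ℕ} (hde : d ≤ e) {g : E[X]} (hg : A.Pd i d g) :
    A.Pd i e g :=
  ⟨hg.1.trans hde, fun n => hA.pol_mono i d e hde (hg.2 n)⟩

theorem Pd_one (hA : A.Ax) {i : X.I} : A.Pd i 0 (1 : E[X]) := by
  refine ⟨by simp, fun n => ?_⟩
  rw [Polynomial.coeff_one]
  split_ifs
  · exact hA.pol_one i
  · exact (A.pol i 0).zero_mem

theorem Pd_mul (hA : A.Ax) {i : X.I} {d e : ℕ} {g h : E[X]} (hg : A.Pd i d g)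
    (hh : A.Pd i e h) : A.Pd i (d + e) (g * h) := by
  refine ⟨Polynomial.natDegree_mul_le.trans (add_le_add hg.1 hh.1), fun n => ?_⟩
  rw [Polynomial.coeff_mul]
  exact (A.pol i (d + e)).sum_mem fun x _ => hA.pol_mul i d e _ _ (hg.2 _) (hh.2 _)

theorem Pd_phi (hA : A.Ax) {i : X.I} {d : ℕ} {g : E[X]} (hg : A.Pd i d g) :
    A.Pd i (X.p i * d) (phiP (A.phi i) (X.p i) g) := by
  refine ⟨?_, fun n => ?_⟩
  · rw [phiP_apply, Polynomial.natDegree_expand, mul_comm]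
    exact Nat.mul_le_mul le_rfl (Polynomial.natDegree_map_le.trans hg.1)
  · rw [coeff_phiP _ _ (X.hp i).pos]
    split_ifs
    · exact hA.pol_phi i d _ (hg.2 _)
    · exact (A.pol i _).zero_mem

/-- lowest coefficient of a product -/
theorem low_mul (g h : E[X]) (n m : ℕ) (hg : ∀ k < n, g.coeff k = 0)
    (hh : ∀ k < m, h.coeff k = 0) :
    (g * h).coeff (n + m) = g.coeff n * h.coeff m ∧ ∀ k < n + m, (g * h).coeff k = 0 := by
  refine ⟨?_, fun k hk => ?_⟩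
  · rw [Polynomial.coeff_mul, Finset.sum_eq_single (n, m)]
    · rintro ⟨a, b⟩ hab hne
      rw [Finset.HasAntidiagonal.mem_antidiagonal] at hab
      rcases lt_trichotomy a n with h1 | h1 | h1
      · simp only
        rw [hg a h1, zero_mul]
      · exact absurd (by simp only at hab ⊢; rw [Prod.mk.injEq]; omega) hne
      · simp only at hab ⊢
        rw [hh b (by omega), mul_zero]
    · intro h1
      exact absurd (Finset.HasAntidiagonal.mem_antidiagonal.2 (rfl : (n, m).1 + (n, m).2 = n + m)) h1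
  · rw [Polynomial.coeff_mul]
    refine Finset.sum_eq_zero ?_
    rintro ⟨a, b⟩ hab
    rw [Finset.HasAntidiagonal.mem_antidiagonal] at hab
    simp only at hab ⊢
    rcases lt_or_ge a n with h1 | h1
    · rw [hg a h1, zero_mul]
    · rw [hh b (by omega), mul_zero]

end Pool.CM.DEN

namespace Pool.CM

theorem den (_h1 : VALUStmt) (h2 : GAUStmt) : DENStmt := by
  intro X E _ A hA
  refine ⟨?_, ?_, ?_, ?_, ?_, ?_⟩
  · rintro i d x ⟨g, hg, _, e⟩
    exact ⟨g, hg, e⟩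
  · rintro i d x ⟨g, hg, ⟨n, hn, _⟩, rfl⟩
    exact (h2 X E A hA i).2.2.1 g ⟨DEN.int_of_Pd A hA hg, n, hA.den_un i d _ hn⟩
  · rintro i d e hde x ⟨g, hg, ⟨n, hn, hl⟩, rfl⟩
    exact ⟨g, DEN.Pd_mono A hA hde hg, ⟨n, hA.den_mono i d e hde hn, hl⟩, rfl⟩
  · intro i
    refine ⟨1, DEN.Pd_one A hA, ⟨0, ?_, fun m hm => absurd hm (Nat.not_lt_zero m)⟩, ?_⟩
    · rw [Polynomial.coeff_one_zero]
      exact hA.den_one i
    · rw [map_one]
  · rintro i d e x y ⟨g, hg, ⟨n, hn, hl⟩, rfl⟩ ⟨h, hh, ⟨m, hm, hl'⟩, rfl⟩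
    obtain ⟨k1, k2⟩ := DEN.low_mul g h n m hl hl'
    refine ⟨g * h, DEN.Pd_mul A hA hg hh, ⟨n + m, ?_, k2⟩, ?_⟩
    · rw [k1]
      exact hA.den_mul i d e _ _ hn hm
    · rw [map_mul]
  · rintro i d x ⟨g, hg, ⟨n, hn, hl⟩, rfl⟩
    refine ⟨phiP (A.phi i) (X.p i) g, DEN.Pd_phi A hA hg, ⟨X.p i * n, ?_, fun m hm => ?_⟩, ?_⟩
    · rw [DEN.coeff_phiP _ _ (X.hp i).pos, if_pos (dvd_mul_right _ _),
        Nat.mul_div_cancel_left _ (X.hp i).pos]
      exact hA.den_phi i d _ hn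
    · rw [DEN.coeff_phiP _ _ (X.hp i).pos]
      split_ifs with hd
      · rw [hl _ (Nat.div_lt_of_lt_mul hm), map_zero]
      · rfl
    · exact phiR_algebraMap _ _ (X.hp i).pos _

end Pool.CM
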