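import Pool.Agent.H10.CM.FStmts

set_option autoImplicit false

open Polynomial

namespace Pool.CM.PHI

variable {E : Type} [Field E] {X : Idx} (A : PF X E)

/-- coefficients of `phiP` -/
theorem coeff_phiP (φ : E →+* E) (p : ℕ) (hp : 0 < p) (g : E[X]) (n : ℕ) :
    (phiP φ p g).coeff n = if p ∣ n then φ (g.coeff (n / p)) else 0 := by
  rw [phiP_apply, Polynomial.coeff_expand hp]
  split_ifs with h
  · rw [Polynomial.coeff_map]
  · rfl

/-- the ring of integral polynomials -/
def IR (i : X.I) : Subring E[X] where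
  carrier := {g | A.Int i g}
  mul_mem' := fun ha hb => PF.Int.mul A ha hb
  one_mem' := PF.Int.one A
  add_mem' := fun ha hb => PF.Int.add A ha hb
  zero_mem' := PF.Int.zero A
  neg_mem' := fun ha => PF.Int.neg A ha

theorem int_phiP (hA : A.Ax) (i : X.I) (g : E[X]) (hg : A.Int i g) :
    A.Int i (phiP (A.phi i) (X.p i) g) := by
  intro n
  rw [coeff_phiP _ _ (X.hp i).pos]
  split_ifs
  · exact hA.phi_O i _ (hg _)
  · exact (A.O i).zero_mem

theorem prim_phiP (h1 : VALUStmt) (hA : A.Ax) (i : X.I) (g : E[X]) (hg : A.Prim i g) :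
    A.Prim i (phiP (A.phi i) (X.p i) g) := by
  obtain ⟨hi, n, hn⟩ := hg
  refine ⟨int_phiP A hA i g hi, X.p i * n, ?_⟩
  rw [coeff_phiP _ _ (X.hp i).pos, if_pos (dvd_mul_right _ _),
    Nat.mul_div_cancel_left _ (X.hp i).pos]
  exact (h1 X E A hA i).2.2.2.2.2.2 _ hn

theorem frob_add (i : X.I) (g h : E[X]) (hg : A.Int i g) (hh : A.Int i h)
    (r s : E[X]) (hr : A.Int i r) (hs : A.Int i s)
    (e1 : phiP (A.phi i) (X.p i) g - g ^ X.p i = (X.p i : E[X]) * r)
    (e2 : phiP (A.phi i) (X.p i) h - h ^ X.p i = (X.p i : E[X]) * s) :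
    ∃ t, A.Int i t ∧
      phiP (A.phi i) (X.p i) (g + h) - (g + h) ^ X.p i = (X.p i : E[X]) * t := by
  obtain ⟨w, hw⟩ := exists_add_pow_prime_eq (X.hp i) (⟨g, hg⟩ : IR A i) (⟨h, hh⟩ : IR A i)
  have hw2 := congrArg (fun z : IR A i => (z : E[X])) hw
  simp only [Subring.coe_add, Subring.coe_mul, Subring.coe_pow, Subring.coe_natCast] at hw2
  refine ⟨r + s - g * h * (w : E[X]), (IR A i).sub_mem ((IR A i).add_mem hr hs)
    ((IR A i).mul_mem ((IR A i).mul_mem hg hh) w.2), ?_⟩
  rw [map_add, hw2]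
  linear_combination e1 + e2

theorem frob_mono (hA : A.Ax) (i : X.I) (n : ℕ) (a : E) (ha : a ∈ A.O i) :
    ∃ t, A.Int i t ∧ phiP (A.phi i) (X.p i) (monomial n a) - (monomial n a) ^ X.p i =
      (X.p i : E[X]) * t := by
  obtain ⟨b, hb, e⟩ := hA.phi_frob i a ha
  refine ⟨monomial (n * X.p i) b, ?_, ?_⟩
  · intro m
    rw [Polynomial.coeff_monomial]
    split_ifs
    · exact hb
    · exact (A.O i).zero_mem
  · rw [phiP_apply, Polynomial.map_monomial, Polynomial.expand_monomial, Polynomial.monomial_pow,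
      ← map_sub, e, pow_one, ← Polynomial.C_mul_monomial, ← Polynomial.C_eq_natCast]

theorem frob (hA : A.Ax) (i : X.I) (g : E[X]) (hg : A.Int i g) :
    ∃ t, A.Int i t ∧ phiP (A.phi i) (X.p i) g - g ^ X.p i = (X.p i : E[X]) * t := by
  have key : ∀ s : Finset ℕ, A.Int i (∑ n ∈ s, monomial n (g.coeff n)) ∧ ∃ t, A.Int i t ∧
      phiP (A.phi i) (X.p i) (∑ n ∈ s, monomial n (g.coeff n)) -
        (∑ n ∈ s, monomial n (g.coeff n)) ^ X.p i = (X.p i : E[X]) * t := by
    intro s
    induction s using Finset.induction_on with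
    | empty =>
      refine ⟨?_, 0, PF.Int.zero A, ?_⟩
      · rw [Finset.sum_empty]; exact PF.Int.zero A
      · rw [Finset.sum_empty, map_zero, zero_pow (X.hp i).ne_zero, mul_zero, sub_zero]
    | insert a s ha ih =>
      obtain ⟨h1, t, ht, e⟩ := ih
      have h2 : A.Int i (monomial a (g.coeff a)) := by
        intro m
        rw [Polynomial.coeff_monomial]
        split_ifs
        · exact hg _
        · exact (A.O i).zero_mem
      obtain ⟨r, hr, e2⟩ := frob_mono A hA i a (g.coeff a) (hg a)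
      rw [Finset.sum_insert ha]
      exact ⟨PF.Int.add A h2 h1, frob_add A i _ _ h2 h1 _ _ hr ht e2 e⟩
  have := (key g.support).2
  rwa [← Polynomial.as_sum_support] at this

end Pool.CM.PHI

namespace Pool.CM

theorem phi (h1 : VALUStmt) (_h2 : PRMStmt) (h3 : GAUStmt) : PHIStmt := by
  intro X E _ A hA
  refine ⟨fun i x hx => ?_, fun i x hx => ?_⟩
  · obtain ⟨g, h, hg, hh, e⟩ := ((h3 X E A hA i).1 x).1 hx
    refine ((h3 X E A hA i).1 _).2 ⟨phiP (A.phi i) (X.p i) g, phiP (A.phi i) (X.p i) h,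
      PHI.int_phiP A hA i g hg, PHI.prim_phiP A h1 hA i h hh, ?_⟩
    have := congrArg (phiR (A.phi i) (X.p i) (X.hp i).pos) e
    rw [map_mul, phiR_algebraMap, phiR_algebraMap] at this
    exact this
  · obtain ⟨g, h, hg, hh, e⟩ := ((h3 X E A hA i).1 x).1 hx
    have e' : phiR (A.phi i) (X.p i) (X.hp i).pos x *
        algebraMap E[X] (RatFunc E) (phiP (A.phi i) (X.p i) h) =
        algebraMap E[X] (RatFunc E) (phiP (A.phi i) (X.p i) g) := by
      have := congrArg (phiR (A.phi i) (X.p i) (X.hp i).pos) e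
      rw [map_mul, phiR_algebraMap, phiR_algebraMap] at this
      exact this
    have hP := PHI.prim_phiP A h1 hA i h hh
    obtain ⟨r, hr, er⟩ := PHI.frob A hA i g hg
    obtain ⟨s, hs, es⟩ := PHI.frob A hA i h hh.1
    have hh0 : h ≠ 0 := by
      rintro rfl
      obtain ⟨_, n, hn⟩ := hh
      exact hn.1 (by simp)
    have hP0 : phiP (A.phi i) (X.p i) h ≠ 0 := by
      intro h0
      exact hh0 (phiP_injective _ _ (X.hp i).pos (by rw [h0, map_zero]))
    set ag := algebraMap E[X] (RatFunc E) with hag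
    have hinj : Function.Injective ag := IsFractionRing.injective E[X] (RatFunc E)
    have n1 : ag h ≠ 0 := fun h0 => hh0 (hinj (by rw [h0, map_zero]))
    have n2 : ag (phiP (A.phi i) (X.p i) h) ≠ 0 := fun h0 => hP0 (hinj (by rw [h0, map_zero]))
    refine ⟨ag (r * h ^ X.p i - g ^ X.p i * s) / ag (phiP (A.phi i) (X.p i) h * h ^ X.p i),
      ?_, ?_⟩
    · refine ⟨r * h ^ X.p i - g ^ X.p i * s, ?_, phiP (A.phi i) (X.p i) h * h ^ X.p i, ?_, ?_⟩
      · exact (PHI.IR A i).sub_mem ((PHI.IR A i).mul_mem hr ((PHI.IR A i).pow_mem hh.1 _))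
          ((PHI.IR A i).mul_mem ((PHI.IR A i).pow_mem hg _) hs)
      · exact (A.primS i).mul_mem (Submonoid.subset_closure hP)
          ((A.primS i).pow_mem (Submonoid.subset_closure hh) _)
      · rw [div_mul_cancel₀]
        rw [map_mul, map_pow]
        exact mul_ne_zero n2 (pow_ne_zero _ n1)
    · change phiR (A.phi i) (X.p i) (X.hp i).pos x - x ^ X.p i = _
      have hx1 : x = ag g / ag h := by rw [eq_div_iff n1]; exact e
      have hx2 : phiR (A.phi i) (X.p i) (X.hp i).pos x =
          ag (phiP (A.phi i) (X.p i) g) / ag (phiP (A.phi i) (X.p i) h) := by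
        rw [eq_div_iff n2]; exact e'
      have er' := congrArg ag er
      have es' := congrArg ag es
      rw [map_sub, map_pow, map_mul, map_natCast] at er' es'
      rw [hx2, hx1, map_sub, map_mul, map_mul, map_mul, map_pow, map_pow, pow_one, div_pow]
      have e3 : ag (phiP (A.phi i) (X.p i) g) = ag g ^ X.p i + (X.p i : RatFunc E) * ag r := by
        linear_combination er'
      have e4 : (X.p i : RatFunc E) * ag s = ag (phiP (A.phi i) (X.p i) h) - ag h ^ X.p i := by
        linear_combination -es'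
      rw [e3]
      field_simp
      linear_combination (ag g ^ X.p i) * e4

end Pool.CM
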