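import Pool.Agent.H10.CM.FStmts

set_option autoImplicit false

open Polynomial

namespace Pool.CM.XTE

variable {E : Type} [Field E] {X : Idx} (A : PF X E)

theorem exP_monomial (m : ℕ) (a : E) :
    exP E (monomial m a) = HahnSeries.single (m : ℤ) a := by
  ext k
  rcases lt_or_ge k 0 with hk | hk
  · rw [exP_coeff_neg _ _ hk, HahnSeries.coeff_single_of_ne (by omega)]
  · obtain ⟨n, rfl⟩ := Int.eq_ofNat_of_zero_le hk
    rw [exP_coeff_nat, Polynomial.coeff_monomial]
    split_ifs with h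
    · rw [h, HahnSeries.coeff_single_same]
    · rw [HahnSeries.coeff_single_of_ne (by omega)]

/-- coefficient of a product with a polynomial -/
theorem coeff_mul_exP (f : LaurentSeries E) (h : E[X]) (k : ℤ) :
    (f * exP E h).coeff k = ∑ m ∈ h.support, f.coeff (k - m) * h.coeff m := by
  conv_lhs => rw [Polynomial.as_sum_support h]
  rw [map_sum, Finset.mul_sum, HahnSeries.coeff_sum]
  refine Finset.sum_congr rfl fun m _ => ?_
  rw [exP_monomial]
  have h1 := HahnSeries.coeff_mul_single_add (r := h.coeff m) (x := f) (a := k - m) (b := (m : ℤ))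
  rw [sub_add_cancel] at h1
  exact h1

theorem dv_mul (i : X.I) (M : ℕ) (x y : E) (hx : A.Dv i M x) (hy : y ∈ A.O i) :
    A.Dv i M (x * y) := by
  obtain ⟨z, hz, rfl⟩ := hx
  exact ⟨z * y, (A.O i).mul_mem hz hy, by ring⟩

theorem dv_neg (i : X.I) (M : ℕ) (x : E) (hx : A.Dv i M x) : A.Dv i M (-x) := by
  obtain ⟨z, hz, rfl⟩ := hx
  exact ⟨-z, (A.O i).neg_mem hz, by ring⟩

theorem dv_sum (i : X.I) (M : ℕ) {ι : Type*} (s : Finset ι) (f : ι → E)
    (h : ∀ a ∈ s, A.Dv i M (f a)) : A.Dv i M (∑ a ∈ s, f a) := by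
  classical
  induction s using Finset.induction_on with
  | empty => exact ⟨0, (A.O i).zero_mem, by simp⟩
  | insert a s ha ih =>
    rw [Finset.sum_insert ha]
    obtain ⟨z, hz, e⟩ := h a (Finset.mem_insert_self _ _)
    obtain ⟨w, hw, e'⟩ := ih fun b hb => h b (Finset.mem_insert_of_mem hb)
    exact ⟨z + w, (A.O i).add_mem hz hw, by rw [e, e']; ring⟩

end Pool.CM.XTE

namespace Pool.CM

theorem xte (_h1 : VALUStmt) (_h2 : XTStmt) : XTEStmt := by
  intro X E _ A hA i d x M hx hneg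
  obtain ⟨_, ⟨g, hg, rfl⟩, _, ⟨h, hh, ⟨n, hn, hl⟩, rfl⟩, e⟩ := hx
  have hO : ∀ m, h.coeff m ∈ A.O i := fun m => hA.pol_O i d _ (hh.2 m)
  have hU := hA.den_un i d _ hn
  have e1 := congrArg (ex E) e
  rw [map_mul, ex_algebraMap, ex_algebraMap] at e1
  have e2 := congrArg (fun f : LaurentSeries E => f.coeff (n : ℤ)) e1
  rw [exP_coeff_nat, XTE.coeff_mul_exP] at e2
  have hmem : n ∈ h.support := by
    rw [Polynomial.mem_support_iff]
    exact hU.1
  rw [← Finset.add_sum_erase _ _ hmem, sub_self] at e2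
  refine ⟨g.coeff n / h.coeff n, ⟨g.coeff n, hg.2 n, h.coeff n, hn, div_mul_cancel₀ _ hU.1⟩, ?_⟩
  have e3 : (ex E x).coeff 0 - g.coeff n / h.coeff n =
      (-∑ m ∈ h.support.erase n, (ex E x).coeff ((n : ℤ) - m) * h.coeff m) *
        (h.coeff n)⁻¹ := by
    rw [← e2]
    have := hU.1
    field_simp
    ring
  rw [e3]
  refine XTE.dv_mul A i M _ _ (XTE.dv_neg A i M _ (XTE.dv_sum A i M _ _ fun m hm => ?_)) hU.2.2
  rw [Finset.mem_erase, Polynomial.mem_support_iff] at hm
  have hm2 : n < m := by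
    rcases lt_trichotomy m n with h1 | h1 | h1
    · exact absurd (hl m h1) hm.2
    · exact absurd h1 hm.1
    · exact h1
  exact XTE.dv_mul A i M _ _ (hneg _ (by omega)) (hO m)

end Pool.CM
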